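import Mathlib

set_option autoImplicit false

open Filter Topology Set Metric

namespace Pool.Agent.Lib.MP_760d08_an

set_option linter.unusedSectionVars false

variable {X : Type*} [NormedAddCommGroup X] [NormedSpace ℝ X]

/-- Uniform convexity, uniform over all radii at most one. -/
theorem uc_unif [UniformConvexSpace X] {ε : ℝ} (hε : 0 < ε) :
    ∃ δ, 0 < δ ∧ ∀ r : ℝ, r ≤ 1 → ∀ a b : X, ‖a‖ ≤ r → ‖b‖ ≤ r → ε ≤ ‖a - b‖ →
      ‖a + b‖ ≤ 2 * r - δ := by
  obtain ⟨δ, hδ, h⟩ := exists_forall_closed_ball_dist_add_le_two_sub X hε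
  refine ⟨ε / 2 * δ, by positivity, ?_⟩
  intro r hr a b ha hb hab
  have h2r : ε ≤ 2 * r := by
    calc ε ≤ ‖a - b‖ := hab
      _ ≤ ‖a‖ + ‖b‖ := norm_sub_le _ _
      _ ≤ 2 * r := by linarith
  have hr0 : 0 < r := by linarith
  have key : ∀ z : X, ‖r⁻¹ • z‖ = r⁻¹ * ‖z‖ := fun z =>
    norm_smul_of_nonneg (by positivity) z
  have ha' : ‖r⁻¹ • a‖ ≤ 1 := by
    rw [key, inv_mul_le_iff₀ hr0]; linarith
  have hb' : ‖r⁻¹ • b‖ ≤ 1 := by
    rw [key, inv_mul_le_iff₀ hr0]; linarith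
  have hab' : ε ≤ ‖r⁻¹ • a - r⁻¹ • b‖ := by
    rw [← smul_sub, key, le_inv_mul_iff₀ hr0]
    nlinarith
  have := h ha' hb' hab'
  rw [← smul_add, key, inv_mul_le_iff₀ hr0] at this
  nlinarith

/-- The ball. -/
def NonexpOn (T : X → X) : Prop :=
  MapsTo T (closedBall (0 : X) 1) (closedBall (0 : X) 1) ∧
    ∀ x ∈ closedBall (0 : X) 1, ∀ y ∈ closedBall (0 : X) 1, ‖T x - T y‖ ≤ ‖x - y‖

theorem NonexpOn.iterate {T : X → X} (hT : NonexpOn T) (l : ℕ) : NonexpOn (T^[l]) := by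
  induction l with
  | zero => exact ⟨fun x hx => hx, fun x _ y _ => le_rfl⟩
  | succ l ih =>
    rw [Function.iterate_succ']
    refine ⟨hT.1.comp ih.1, fun x hx y hy => ?_⟩
    exact (hT.2 _ (ih.1 hx) _ (ih.1 hy)).trans (ih.2 x hx y hy)

theorem ball_convex {u v : X} (hu : u ∈ closedBall (0 : X) 1) (hv : v ∈ closedBall (0 : X) 1)
    {t : ℝ} (ht0 : 0 ≤ t) (ht1 : t ≤ 1) : t • u + (1 - t) • v ∈ closedBall (0 : X) 1 :=
  convex_closedBall (0 : X) 1 hu hv ht0 (by linarith) (by ring)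

theorem norm_sub_le_two {u v : X} (hu : u ∈ closedBall (0 : X) 1)
    (hv : v ∈ closedBall (0 : X) 1) : ‖u - v‖ ≤ 2 := by
  rw [mem_closedBall_zero_iff] at hu hv
  linarith [norm_sub_le u v]

theorem gamma_aux [UniformConvexSpace X] {ε : ℝ} (hε : 0 < ε) :
    ∃ δ, 0 < δ ∧ ∀ (w p q : X) (D t : ℝ), D ≤ 2 → 0 ≤ t → t ≤ 1 / 2 →
      ‖w - p‖ ≤ (1 - t) * D → ‖w - q‖ ≤ t * D → D - δ ≤ ‖p - q‖ →
      ‖w - (t • p + (1 - t) • q)‖ < ε := by
  obtain ⟨δ, hδ, h⟩ := uc_unif (X := X) hε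
  refine ⟨δ / 2, by positivity, ?_⟩
  intro w p q D t hD2 ht0 ht2 hp hq hpq
  by_contra hcon
  push Not at hcon
  have ht1 : 0 < 1 - t := by linarith
  rcases eq_or_lt_of_le ht0 with ht | ht
  · -- t = 0
    subst ht
    have : ‖w - q‖ ≤ 0 := by simpa using hq
    have h0 : w - q = 0 := norm_le_zero_iff.mp this
    simp [h0] at hcon
    linarith
  set a := (1 - t) • (w - q) with ha
  set b := t • (p - w) with hb
  set r := t * (1 - t) * D with hr
  have hD0 : 0 ≤ D := by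
    have := norm_nonneg (w - q)
    nlinarith
  have hna : ‖a‖ ≤ r := by
    rw [ha, norm_smul_of_nonneg ht1.le, hr]
    nlinarith
  have hnb : ‖b‖ ≤ r := by
    rw [hb, norm_smul_of_nonneg ht0, norm_sub_rev, hr]
    nlinarith
  have hr1 : r ≤ 1 := by
    rw [hr]
    have : t * (1 - t) ≤ 1 / 4 := by nlinarith [sq_nonneg (t - 1/2)]
    nlinarith
  have hab : a - b = w - (t • p + (1 - t) • q) := by
    rw [ha, hb]; module
  have h1 := h r hr1 a b hna hnb (by rw [hab]; exact hcon)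
  -- lower bound for ‖a + b‖
  have hpq' : p - q = (1 / (1 - t)) • (a + b) + (1 / t - 1 / (1 - t)) • b := by
    rw [ha, hb]
    have h1t : (1 / (1 - t)) * (1 - t) = 1 := by field_simp
    have h2t : (1 / t) * t = 1 := by field_simp
    have : (1 / (1 - t)) • ((1 - t) • (w - q) + t • (p - w)) + (1 / t - 1 / (1 - t)) • t • (p - w)
        = ((1 / (1 - t)) * (1 - t)) • (w - q) + ((1 / t) * t) • (p - w) := by
      module
    rw [this, h1t, h2t]; module
  have hc : 0 ≤ 1 / t - 1 / (1 - t) := by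
    rw [sub_nonneg]
    apply one_div_le_one_div_of_le ht; linarith
  have h2 : ‖p - q‖ ≤ (1 / (1 - t)) * ‖a + b‖ + (1 / t - 1 / (1 - t)) * r := by
    rw [hpq']
    refine (norm_add_le _ _).trans ?_
    rw [norm_smul_of_nonneg (by positivity), norm_smul_of_nonneg hc]
    gcongr
  have h3 : (1 / t - 1 / (1 - t)) * r = (1 - t) * D - t * D := by
    rw [hr]; field_simp
  have h4 : (1 / (1 - t)) * ‖a + b‖ ≤ (1 / (1 - t)) * (2 * r - δ) := by
    gcongr
  have h5 : (1 / (1 - t)) * (2 * r - δ) = 2 * t * D - δ / (1 - t) := by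
    rw [hr]; field_simp
  have h6 : δ ≤ δ / (1 - t) := by
    rw [le_div_iff₀ ht1]; nlinarith
  nlinarith

/-- Bruck's two point lemma: nonexpansive maps almost preserve convex combinations of pairs of
points whose distance is almost preserved. -/
theorem gamma [UniformConvexSpace X] {ε : ℝ} (hε : 0 < ε) :
    ∃ δ, 0 < δ ∧ ∀ (R : X → X), NonexpOn R → ∀ u ∈ closedBall (0 : X) 1,
      ∀ v ∈ closedBall (0 : X) 1, ∀ t : ℝ, 0 ≤ t → t ≤ 1 →
      ‖u - v‖ - ‖R u - R v‖ ≤ δ →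
      ‖R (t • u + (1 - t) • v) - (t • R u + (1 - t) • R v)‖ < ε := by
  obtain ⟨δ, hδ, h⟩ := gamma_aux (X := X) hε
  refine ⟨δ, hδ, ?_⟩
  intro R hR u hu v hv t ht0 ht1 hdec
  have hw := ball_convex hu hv ht0 ht1
  have e1 : ‖R (t • u + (1 - t) • v) - R u‖ ≤ (1 - t) * ‖u - v‖ := by
    refine (hR.2 _ hw _ hu).trans ?_
    have : t • u + (1 - t) • v - u = (1 - t) • (v - u) := by module
    rw [this, norm_smul_of_nonneg (by linarith), norm_sub_rev]
  have e2 : ‖R (t • u + (1 - t) • v) - R v‖ ≤ t * ‖u - v‖ := by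
    refine (hR.2 _ hw _ hv).trans ?_
    have : t • u + (1 - t) • v - v = t • (u - v) := by module
    rw [this, norm_smul_of_nonneg (by linarith)]
  rcases le_total t (1/2) with h2 | h2
  · exact h _ _ _ ‖u - v‖ t (norm_sub_le_two hu hv) ht0 h2 e1 e2 (by linarith)
  · have := h (R (t • u + (1 - t) • v)) (R v) (R u) ‖u - v‖ (1 - t) (norm_sub_le_two hu hv)
      (by linarith) (by linarith) (by simpa using e2) e1 (by rw [norm_sub_rev (R v)]; linarith)
    convert this using 3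
    module

/-- A real sequence is almost monotone if it eventually nearly does not increase. -/
def AlmostMono (g : ℕ → ℝ) : Prop := ∀ ε > 0, ∃ K, ∀ k ≥ K, ∀ l, g (k + l) ≤ g k + ε

theorem AlmostMono.tendsto {g : ℕ → ℝ} (hg : AlmostMono g) {c : ℝ} (hc : ∀ k, c ≤ g k) :
    ∃ L, Tendsto g atTop (𝓝 L) := by
  have hb1 : IsBoundedUnder (· ≤ ·) atTop g := by
    obtain ⟨K, hK⟩ := hg 1 one_pos
    refine ⟨g K + 1, ?_⟩
    rw [eventually_map]
    filter_upwards [eventually_ge_atTop K] with n hn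
    have := hK K le_rfl (n - K)
    rwa [Nat.add_sub_cancel' hn] at this
  have hb2 : IsBoundedUnder (· ≥ ·) atTop g := ⟨c, by
    rw [eventually_map]; exact Eventually.of_forall hc⟩
  refine ⟨liminf g atTop, tendsto_of_le_liminf_of_limsup_le le_rfl ?_ hb1 hb2⟩
  refine le_of_forall_pos_le_add fun ε hε => ?_
  obtain ⟨K, hK⟩ := hg (ε / 2) (by positivity)
  have hfr : ∃ᶠ n in atTop, g n < liminf g atTop + ε / 2 :=
    frequently_lt_of_liminf_lt hb1.isCoboundedUnder_ge (by linarith)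
  obtain ⟨k, hk, hkK⟩ := (hfr.and_eventually (eventually_ge_atTop K)).exists
  refine limsup_le_of_le hb2.isCoboundedUnder_le ?_
  filter_upwards [eventually_ge_atTop k] with n hn
  have := hK k hkK (n - k)
  rw [Nat.add_sub_cancel' hn] at this
  linarith

/-- Almost orbits of `T` in the unit ball. -/
def AlmostOrbit (T : X → X) (y : ℕ → X) : Prop :=
  (∀ k, y k ∈ closedBall (0 : X) 1) ∧
    ∀ ε > 0, ∃ K, ∀ k ≥ K, ∀ l, ‖T^[l] (y k) - y (k + l)‖ ≤ ε

theorem AlmostOrbit.dist {T : X → X} (hT : NonexpOn T) {y z : ℕ → X} (hy : AlmostOrbit T y)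
    (hz : AlmostOrbit T z) : AlmostMono (fun k => ‖y k - z k‖) := by
  intro ε hε
  obtain ⟨K1, h1⟩ := hy.2 (ε / 2) (by positivity)
  obtain ⟨K2, h2⟩ := hz.2 (ε / 2) (by positivity)
  refine ⟨max K1 K2, fun k hk l => ?_⟩
  have e1 := h1 k (le_trans (le_max_left _ _) hk) l
  have e2 := h2 k (le_trans (le_max_right _ _) hk) l
  have e3 := (hT.iterate l).2 _ (hy.1 k) _ (hz.1 k)
  have : y (k + l) - z (k + l) = -(T^[l] (y k) - y (k + l)) + (T^[l] (y k) - T^[l] (z k))
      + (T^[l] (z k) - z (k + l)) := by abel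
  show ‖y (k + l) - z (k + l)‖ ≤ ‖y k - z k‖ + ε
  rw [this]
  refine (norm_add₃_le).trans ?_
  rw [norm_neg]
  linarith

theorem AlmostOrbit.convex [UniformConvexSpace X] {T : X → X} (hT : NonexpOn T) {y z : ℕ → X}
    (hy : AlmostOrbit T y) (hz : AlmostOrbit T z) {t : ℝ} (ht0 : 0 ≤ t) (ht1 : t ≤ 1) :
    AlmostOrbit T (fun k => t • y k + (1 - t) • z k) := by
  refine ⟨fun k => ball_convex (hy.1 k) (hz.1 k) ht0 ht1, fun ε hε => ?_⟩
  obtain ⟨δ, hδ, hg⟩ := gamma (X := X) (ε := ε / 2) (by positivity)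
  obtain ⟨L, hL⟩ := (AlmostOrbit.dist hT hy hz).tendsto (c := 0) (fun k => norm_nonneg _)
  rw [Metric.tendsto_atTop] at hL
  obtain ⟨K0, h0⟩ := hL (δ / 4) (by positivity)
  set η := min (δ / 4) (ε / 2) with hη
  have hη0 : 0 < η := by positivity
  obtain ⟨K1, h1⟩ := hy.2 η hη0
  obtain ⟨K2, h2⟩ := hz.2 η hη0
  refine ⟨max K0 (max K1 K2), fun k hk l => ?_⟩
  have hk0 : K0 ≤ k := le_trans (le_max_left _ _) hk
  have hk1 : K1 ≤ k := le_trans (le_trans (le_max_left _ _) (le_max_right _ _)) hk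
  have hk2 : K2 ≤ k := le_trans (le_trans (le_max_right _ _) (le_max_right _ _)) hk
  have e1 := h1 k hk1 l
  have e2 := h2 k hk2 l
  have hη1 : η ≤ δ / 4 := min_le_left _ _
  have hη2 : η ≤ ε / 2 := min_le_right _ _
  have d1 := h0 k hk0
  have d2 := h0 (k + l) (le_trans hk0 (Nat.le_add_right _ _))
  rw [Real.dist_eq, abs_lt] at d1 d2
  have hdec : ‖y k - z k‖ - ‖T^[l] (y k) - T^[l] (z k)‖ ≤ δ := by
    have : ‖y (k + l) - z (k + l)‖ ≤ ‖T^[l] (y k) - T^[l] (z k)‖ + 2 * η := by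
      have : y (k + l) - z (k + l) = -(T^[l] (y k) - y (k + l)) + (T^[l] (y k) - T^[l] (z k))
          + (T^[l] (z k) - z (k + l)) := by abel
      rw [this]
      refine (norm_add₃_le).trans ?_
      rw [norm_neg]
      linarith
    linarith [d1.2, d2.1]
  have h3 := hg (T^[l]) (hT.iterate l) _ (hy.1 k) _ (hz.1 k) t ht0 ht1 hdec
  have h4 : T^[l] (t • y k + (1 - t) • z k) - (t • y (k + l) + (1 - t) • z (k + l))
      = (T^[l] (t • y k + (1 - t) • z k) - (t • T^[l] (y k) + (1 - t) • T^[l] (z k)))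
        + (t • (T^[l] (y k) - y (k + l)) + (1 - t) • (T^[l] (z k) - z (k + l))) := by
    module
  show ‖T^[l] (t • y k + (1 - t) • z k) - (t • y (k + l) + (1 - t) • z (k + l))‖ ≤ ε
  rw [h4]
  refine (norm_add_le _ _).trans ?_
  have h5 : ‖t • (T^[l] (y k) - y (k + l)) + (1 - t) • (T^[l] (z k) - z (k + l))‖ ≤ η := by
    refine (norm_add_le _ _).trans ?_
    rw [norm_smul_of_nonneg ht0, norm_smul_of_nonneg (by linarith : (0 : ℝ) ≤ 1 - t)]
    nlinarith
  linarith

theorem orbit_mem {T : X → X} (hT : NonexpOn T) {x : X} (hx : x ∈ closedBall (0 : X) 1) (k : ℕ) :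
    T^[k] x ∈ closedBall (0 : X) 1 := (hT.iterate k).1 hx

theorem almostOrbit_orbit {T : X → X} (hT : NonexpOn T) {x : X}
    (hx : x ∈ closedBall (0 : X) 1) (j : ℕ) : AlmostOrbit T (fun k => T^[k + j] x) := by
  refine ⟨fun k => orbit_mem hT hx _, fun ε hε => ⟨0, fun k _ l => ?_⟩⟩
  rw [← Function.iterate_add_apply]
  have : l + (k + j) = k + l + j := by ring
  simp only [this, sub_self, norm_zero]
  exact hε.le

/-- Cesaro means along windows of length `N` starting at time `k`. -/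
noncomputable def S (T : X → X) (x : X) (N k : ℕ) : X :=
  (N : ℝ)⁻¹ • ∑ j ∈ Finset.range N, T^[k + j] x

theorem S_succ (T : X → X) (x : X) (N k : ℕ) (hN : 1 ≤ N) :
    S T x (N + 1) k = ((N : ℝ) / (N + 1)) • S T x N k
      + (1 - (N : ℝ) / (N + 1)) • T^[k + N] x := by
  have hN' : (0 : ℝ) < N := by exact_mod_cast hN
  unfold S
  rw [Finset.sum_range_succ, smul_add, smul_smul]
  push_cast
  congr 2
  · field_simp
  · field_simp
    ring

theorem almostOrbit_S [UniformConvexSpace X] {T : X → X} (hT : NonexpOn T) {x : X}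
    (hx : x ∈ closedBall (0 : X) 1) : ∀ N ≥ 1, AlmostOrbit T (S T x N) := by
  intro N hN
  induction N, hN using Nat.le_induction with
  | base =>
    have : S T x 1 = fun k => T^[k + 0] x := by
      funext k; simp [S]
    rw [this]
    exact almostOrbit_orbit hT hx 0
  | succ N hN ih =>
    have : S T x (N + 1) = fun k => ((N : ℝ) / (N + 1)) • S T x N k
      + (1 - (N : ℝ) / (N + 1)) • T^[k + N] x := by
      funext k; exact S_succ T x N k hN
    rw [this]
    refine ih.convex hT (almostOrbit_orbit hT hx N) (by positivity) ?_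
    rw [div_le_one (by positivity)]; linarith

end Pool.Agent.Lib.MP_760d08_an
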