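import Pool.Agent.Lib.MP_760d08_an.Unique

set_option autoImplicit false

open Filter Topology Set Metric

namespace Pool.Agent.Lib.MP_760d08_an

set_option linter.unusedSectionVars false

variable {X : Type*} [NormedAddCommGroup X] [NormedSpace ℝ X]

/-- In a uniformly convex Banach space bounded families have weak limits along ultrafilters
(a form of the Milman-Pettis theorem). -/
theorem weak_compact [CompleteSpace X] [UniformConvexSpace X] {I : Type*} (P : Ultrafilter I)
    (y : I → X) (hy : ∀ i, y i ∈ closedBall (0 : X) 1) :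
    ∃ p ∈ closedBall (0 : X) 1, WeakTo (P : Filter I) y p := by
  -- closed convex hulls of the tails
  let K : Set I → Set X := fun A => closure (convexHull ℝ (y '' A))
  have Kcl : ∀ A, IsClosed (K A) := fun A => isClosed_closure
  have Kcv : ∀ A, Convex ℝ (K A) := fun A => (convex_convexHull ℝ _).closure
  have Kmem : ∀ A, ∀ i ∈ A, y i ∈ K A := fun A i hi =>
    subset_closure (subset_convexHull ℝ _ ⟨i, hi, rfl⟩)
  have Kmono : ∀ A B, A ⊆ B → K A ⊆ K B := fun A B h =>
    closure_mono (convexHull_mono (image_mono h))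
  have Kmin : ∀ A (C : Set X), IsClosed C → Convex ℝ C → (∀ i ∈ A, y i ∈ C) → K A ⊆ C := by
    intro A C h1 h2 h3
    refine closure_minimal (convexHull_min ?_ h2) h1
    rintro _ ⟨i, hi, rfl⟩
    exact h3 i hi
  have Kne : ∀ A ∈ P, (K A).Nonempty := by
    intro A hA
    obtain ⟨i, hi⟩ := Ultrafilter.nonempty_of_mem hA
    exact ⟨y i, Kmem A i hi⟩
  let dd : Set I → ℝ := fun A => infDist (0 : X) (K A)
  have dd1 : ∀ A ∈ P, dd A ≤ 1 := by
    intro A hA
    obtain ⟨i, hi⟩ := Ultrafilter.nonempty_of_mem hA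
    refine (infDist_le_dist_of_mem (Kmem A i hi)).trans ?_
    rw [dist_zero_left]
    exact norm_le_one (hy i)
  have ddmono : ∀ A B, B ∈ P → B ⊆ A → dd A ≤ dd B := fun A B hB h =>
    infDist_le_infDist_of_subset (Kmono _ _ h) (Kne B hB)
  let D : Set ℝ := {r | ∃ A ∈ P, dd A = r}
  have Dbdd : BddAbove D := ⟨1, by rintro _ ⟨A, hA, rfl⟩; exact dd1 A hA⟩
  have Dne : D.Nonempty := ⟨_, univ, Filter.univ_mem, rfl⟩
  set d := sSup D with hd
  have d_le1 : d ≤ 1 := csSup_le Dne (by rintro _ ⟨A, hA, rfl⟩; exact dd1 A hA)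
  have dle : ∀ A ∈ P, dd A ≤ d := fun A hA => le_csSup Dbdd ⟨A, hA, rfl⟩
  have d0 : 0 ≤ d := (infDist_nonneg (s := K univ) (x := (0 : X))).trans (dle univ Filter.univ_mem)
  -- a uniform estimate
  have small : ∀ ε > 0, ∃ η, 0 < η ∧ η ≤ 1 ∧ ∀ A : Set I, d - η < dd A → ∀ z ∈ K A, ∀ z' ∈ K A,
      ‖z‖ ≤ d + η → ‖z'‖ ≤ d + η → ‖z - z'‖ < ε := by
    intro ε hε
    obtain ⟨δ, hδ, hu⟩ := uc_unif (X := X) (ε := ε / 2) (by positivity)
    refine ⟨min (δ / 4) 1, by positivity, min_le_right _ _, ?_⟩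
    intro A hA z hz z' hz' hzn hzn'
    set η := min (δ / 4) 1 with hη
    have hη0 : 0 < η := by positivity
    have hη1 : η ≤ δ / 4 := min_le_left _ _
    have hη2 : η ≤ 1 := min_le_right _ _
    by_contra hcon
    push Not at hcon
    have q0 : (0 : ℝ) ≤ 1 / 2 := by norm_num
    have n1 : ‖(1 / 2 : ℝ) • z‖ ≤ (d + η) / 2 := by rw [norm_smul_of_nonneg q0]; linarith
    have n2 : ‖(1 / 2 : ℝ) • z'‖ ≤ (d + η) / 2 := by rw [norm_smul_of_nonneg q0]; linarith
    have n3 : ε / 2 ≤ ‖(1 / 2 : ℝ) • z - (1 / 2 : ℝ) • z'‖ := by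
      rw [← smul_sub, norm_smul_of_nonneg q0]; linarith
    have n4 := hu ((d + η) / 2) (by linarith) _ _ n1 n2 n3
    have n5 : (1 / 2 : ℝ) • z + (1 / 2 : ℝ) • z' ∈ K A :=
      Kcv A hz hz' q0 q0 (by norm_num)
    have n6 : dd A ≤ ‖(1 / 2 : ℝ) • z + (1 / 2 : ℝ) • z'‖ := by
      have := infDist_le_dist_of_mem (x := (0 : X)) n5
      rwa [dist_zero_left] at this
    linarith
  -- near-minimal elements exist in every `K A`
  have near : ∀ A ∈ P, ∀ η > 0, ∃ z ∈ K A, ‖z‖ < d + η := by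
    intro A hA η hη
    have : infDist (0 : X) (K A) < d + η := by
      have := dle A hA
      show dd A < _
      linarith
    obtain ⟨z, hz, hz'⟩ := (infDist_lt_iff (Kne A hA)).mp this
    exact ⟨z, hz, by rwa [dist_zero_left] at hz'⟩
  -- choose the sets
  have hA : ∀ n : ℕ, ∃ A ∈ P, d - 1 / ((n : ℝ) + 1) < dd A := by
    intro n
    obtain ⟨_, ⟨A, hA, rfl⟩, h⟩ := exists_lt_of_lt_csSup Dne
      (show d - 1 / ((n : ℝ) + 1) < sSup D by
        have : 0 < 1 / ((n : ℝ) + 1) := by positivity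
        linarith)
    exact ⟨A, hA, h⟩
  choose A hAP hAd using hA
  let B : ℕ → Set I := fun n => ⋂ m ∈ Finset.range (n + 1), A m
  have hBP : ∀ n, B n ∈ P := fun n =>
    (Filter.biInter_finset_mem _).mpr fun m _ => hAP m
  have hBA : ∀ n m, m ≤ n → B n ⊆ A m := fun n m h =>
    biInter_subset_of_mem (Finset.mem_coe.mpr (Finset.mem_range.mpr (by omega)))
  have hZ : ∀ (C : Set I) (_ : C ∈ P) (n : ℕ), ∃ z ∈ K (C ∩ B n), ‖z‖ < d + 1 / ((n : ℝ) + 1) :=
    fun C hC n => near _ (Filter.inter_mem hC (hBP n)) _ (by positivity)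
  have cauchy_est : ∀ ε > 0, ∃ N : ℕ, ∀ m ≥ N, ∀ n ≥ N, ∀ z ∈ K (B m), ∀ z' ∈ K (B n),
      ‖z‖ < d + 1 / ((m : ℝ) + 1) → ‖z'‖ < d + 1 / ((n : ℝ) + 1) → ‖z - z'‖ < ε := by
    intro ε hε
    obtain ⟨η, hη0, _, hs⟩ := small ε hε
    obtain ⟨N, hN⟩ := exists_nat_one_div_lt hη0
    refine ⟨N, fun m hm n hn z hz z' hz' h1 h2 => ?_⟩
    have e1 : 1 / ((m : ℝ) + 1) ≤ 1 / ((N : ℝ) + 1) := by gcongr
    have e2 : 1 / ((n : ℝ) + 1) ≤ 1 / ((N : ℝ) + 1) := by gcongr
    refine hs (A N) (by linarith [hAd N]) z (Kmono _ _ (hBA m N hm) hz) z'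
      (Kmono _ _ (hBA n N hn) hz') (by linarith) (by linarith)
  choose z hzK hzn using hZ univ Filter.univ_mem
  have hzK' : ∀ n, z n ∈ K (B n) := fun n => Kmono _ _ inter_subset_right (hzK n)
  have hcau : CauchySeq z := by
    rw [Metric.cauchySeq_iff]
    intro ε hε
    obtain ⟨N, hN⟩ := cauchy_est ε hε
    exact ⟨N, fun m hm n hn => by
      rw [dist_eq_norm]
      exact hN m hm n hn _ (hzK' m) _ (hzK' n) (hzn m) (hzn n)⟩
  obtain ⟨p, hp⟩ := cauchySeq_tendsto_of_complete hcau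
  have hpK : ∀ C ∈ P, p ∈ K C := by
    intro C hC
    choose z' hzK2 hzn2 using hZ C hC
    have hconv : Tendsto z' atTop (𝓝 p) := by
      rw [Metric.tendsto_atTop]
      intro ε hε
      obtain ⟨N1, h1⟩ := cauchy_est (ε / 2) (by positivity)
      obtain ⟨N2, h2⟩ := (Metric.tendsto_atTop.mp hp) (ε / 2) (by positivity)
      refine ⟨max N1 N2, fun n hn => ?_⟩
      have e1 := h1 n (le_trans (le_max_left _ _) hn) n (le_trans (le_max_left _ _) hn)
        _ (Kmono _ _ inter_subset_right (hzK2 n)) _ (hzK' n) (hzn2 n) (hzn n)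
      have e2 := h2 n (le_trans (le_max_right _ _) hn)
      rw [← dist_eq_norm] at e1
      linarith [dist_triangle (z' n) (z n) p]
    exact (Kcl C).mem_of_tendsto hconv
      (Eventually.of_forall fun n => Kmono _ _ inter_subset_left (hzK2 n))
  refine ⟨p, ?_, ?_⟩
  · exact Kmin univ _ isClosed_closedBall (convex_closedBall _ _) (fun i _ => hy i)
      (hpK univ Filter.univ_mem)
  · intro f
    have hb : ∀ i, |f (y i)| ≤ ‖f‖ := by
      intro i
      rw [← Real.norm_eq_abs]
      refine (f.le_opNorm (y i)).trans ?_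
      have := norm_le_one (hy i)
      have := norm_nonneg f
      nlinarith
    have hL := tendsto_ulim P hb
    have heq : f p = ulim P (fun i => f (y i)) := by
      apply eq_of_abs_sub_le_all
      intro ε hε
      have hmem := (Metric.tendsto_nhds.mp hL) ε hε
      have := Kmin {i | dist (f (y i)) (ulim P fun i => f (y i)) < ε}
        {z | |f z - ulim P (fun i => f (y i))| ≤ ε} ?_ ?_ ?_ (hpK _ hmem)
      · exact this
      · exact isClosed_le (by fun_prop) continuous_const
      · intro u hu v hv α β hα hβ hαβ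
        have hu' : |f u - ulim P (fun i => f (y i))| ≤ ε := hu
        have hv' : |f v - ulim P (fun i => f (y i))| ≤ ε := hv
        show |f (α • u + β • v) - ulim P (fun i => f (y i))| ≤ ε
        simp only [map_add, map_smul, smul_eq_mul]
        have hβ' : β = 1 - α := by linarith
        subst hβ'
        rw [abs_le] at hu' hv' ⊢
        constructor
        · nlinarith
        · nlinarith
      · intro i hi
        have h : dist (f (y i)) (ulim P fun i => f (y i)) < ε := hi
        rw [Real.dist_eq] at h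
        exact h.le
    rw [heq]
    exact hL

/-- Averages of a bounded sequence whose far windows of length `N` are small. -/
theorem avg_small {φ : ℕ → ℝ} {C ε : ℝ} (hC : ∀ k, |φ k| ≤ C) (hε : 0 ≤ ε) {N K : ℕ}
    (hN : 1 ≤ N) (h : ∀ k ≥ K, |∑ j ∈ Finset.range N, φ (k + j)| ≤ N * ε) (n : ℕ) :
    |∑ j ∈ Finset.range n, φ j| ≤ (K + N) * C + n * ε := by
  have hC0 : 0 ≤ C := (abs_nonneg _).trans (hC 0)
  induction n using Nat.strong_induction_on with
  | _ n ih =>
    rcases le_or_gt n (K + N) with hn | hn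
    · have h1 : |∑ j ∈ Finset.range n, φ j| ≤ n * C := by
        refine (Finset.abs_sum_le_sum_abs _ _).trans ?_
        refine (Finset.sum_le_sum fun j _ => hC j).trans ?_
        simp
      have h2 : (n : ℝ) ≤ K + N := by exact_mod_cast hn
      have h3 : (0 : ℝ) ≤ n := Nat.cast_nonneg n
      nlinarith
    · have e1 : n = (n - N) + N := by omega
      have h1 := ih (n - N) (by omega)
      have h2 := h (n - N) (by omega)
      rw [e1, Finset.sum_range_add]
      refine (abs_add_le _ _).trans ?_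
      have : ((n - N + N : ℕ) : ℝ) = ((n - N : ℕ) : ℝ) + N := by push_cast; ring
      rw [this]
      linarith

/-- The nonlinear mean ergodic theorem in uniformly convex Banach spaces. -/
theorem main [CompleteSpace X] [UniformConvexSpace X] {T : X → X} (hT : NonexpOn T)
    {x : X} (hx : x ∈ closedBall (0 : X) 1) :
    ∃ p ∈ closedBall (0 : X) 1, T p = p ∧ ∀ f : X →L[ℝ] ℝ,
      Tendsto (fun n : ℕ => f ((((n : ℝ) + 1)⁻¹) • ∑ j ∈ Finset.range (n + 1), T^[j] x))
        atTop (𝓝 (f p)) := by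
  let y : ℕ × ℕ → X := fun w => S T x w.1 w.2
  have hSb : ∀ N k, S T x N k ∈ closedBall (0 : X) 1 := by
    intro N k
    rcases Nat.eq_zero_or_pos N with hN | hN
    · subst hN; simp [S]
    · exact (almostOrbit_S hT hx N hN).1 k
  have hyb : ∀ w, y w ∈ closedBall (0 : X) 1 := fun w => hSb _ _
  -- the windows are asymptotically fixed along the base filter
  have hfix : Tendsto (fun w => ‖T (y w) - y w‖) BF (𝓝 0) := by
    rw [Metric.tendsto_nhds]
    intro ε hε
    unfold BF
    rw [eventually_curry_iff]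
    obtain ⟨M, hM⟩ := exists_nat_gt (4 / ε)
    filter_upwards [eventually_ge_atTop 1, eventually_ge_atTop M] with N hN hNM
    obtain ⟨K, hK⟩ := (almostOrbit_S hT hx N hN).2 (ε / 3) (by positivity)
    filter_upwards [eventually_ge_atTop K] with k hk
    have h1 := hK k hk 1
    simp only [Function.iterate_one] at h1
    have hN' : (0 : ℝ) < N := by exact_mod_cast hN
    have h2 : S T x N (k + 1) - S T x N k = (N : ℝ)⁻¹ • (T^[k + N] x - T^[k] x) := by
      unfold S
      rw [← smul_sub]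
      congr 1
      rw [← Finset.sum_sub_distrib]
      have e2 := Finset.sum_range_sub (fun j => T^[k + j] x) N
      simp only [add_zero] at e2
      rw [← e2]
      refine Finset.sum_congr rfl fun j _ => ?_
      have : k + 1 + j = k + (j + 1) := by ring
      rw [this]
    have h3 : ‖S T x N (k + 1) - S T x N k‖ ≤ 2 / N := by
      rw [h2, norm_smul_of_nonneg (by positivity), div_eq_inv_mul]
      gcongr
      exact norm_sub_le_two (orbit_mem hT hx _) (orbit_mem hT hx _)
    have h4 : (2 : ℝ) / N < ε / 2 := by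
      rw [div_lt_iff₀ hN']
      have : (M : ℝ) ≤ N := by exact_mod_cast hNM
      rw [div_lt_iff₀ hε] at hM
      nlinarith
    simp only [dist_zero_right, norm_norm]
    show ‖T (S T x N k) - S T x N k‖ < ε
    have : T (S T x N k) - S T x N k = (T (S T x N k) - S T x N (k + 1))
      + (S T x N (k + 1) - S T x N k) := by abel
    rw [this]
    refine lt_of_le_of_lt (norm_add_le _ _) ?_
    linarith
  have happ : ∀ P : Ultrafilter (ℕ × ℕ), (P : Filter (ℕ × ℕ)) ≤ BF → Approx T P y :=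
    fun P hP => ⟨hyb, hfix.mono_left hP⟩
  have : (BF).NeBot := by
    refine ⟨fun h => ?_⟩
    have h2 : ∀ᶠ w in BF, False := by rw [h]; exact Filter.eventually_bot
    unfold BF at h2
    rw [eventually_curry_iff] at h2
    obtain ⟨N, hN⟩ := h2.exists
    exact hN.exists.elim fun _ h => h
  let P : Ultrafilter (ℕ × ℕ) := Ultrafilter.of BF
  have hP : (P : Filter (ℕ × ℕ)) ≤ BF := Ultrafilter.of_le BF
  obtain ⟨p, hp, hwp⟩ := weak_compact P y hyb
  have hTp : T p = p := fixed_of_weak hT (happ P hP) hp hwp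
  refine ⟨p, hp, hTp, ?_⟩
  have hall : ∀ Q : Ultrafilter (ℕ × ℕ), (Q : Filter (ℕ × ℕ)) ≤ BF → WeakTo (Q : Filter (ℕ × ℕ)) y p := by
    intro Q hQ
    obtain ⟨q, hq, hwq⟩ := weak_compact Q y hyb
    have hTq : T q = q := fixed_of_weak hT (happ Q hQ) hq hwq
    have := unique_limit hT hx hp hTp hq hTq hP hQ y (fun _ => rfl) (happ P hP) hwp hwq
    rwa [this] at hwq
  intro f
  have hf : Tendsto (fun w => f (y w)) BF (𝓝 (f p)) := by
    rw [tendsto_iff_ultrafilter]
    exact fun Q hQ => hall Q hQ f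
  rw [Metric.tendsto_atTop]
  intro ε hε
  have h1 := (Metric.tendsto_nhds.mp hf) (ε / 2) (by positivity)
  unfold BF at h1
  rw [eventually_curry_iff] at h1
  obtain ⟨N, hN, hN1⟩ := (h1.and (eventually_ge_atTop 1)).exists
  obtain ⟨K, hK⟩ := eventually_atTop.mp hN
  set φ : ℕ → ℝ := fun k => f (T^[k] x) - f p with hφ
  have hN' : (0 : ℝ) < N := by exact_mod_cast hN1
  have hC : ∀ k, |φ k| ≤ 2 * ‖f‖ := by
    intro k
    rw [hφ]
    simp only
    rw [← map_sub, ← Real.norm_eq_abs]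
    refine (f.le_opNorm _).trans ?_
    rw [mul_comm]
    gcongr
    exact norm_sub_le_two (orbit_mem hT hx _) hp
  have hwin : ∀ k ≥ K, |∑ j ∈ Finset.range N, φ (k + j)| ≤ N * (ε / 2) := by
    intro k hk
    have h2 := hK k hk
    rw [Real.dist_eq] at h2
    have h3 : f (y (N, k)) - f p = (N : ℝ)⁻¹ * ∑ j ∈ Finset.range N, φ (k + j) := by
      simp only [y, S, map_smul, map_sum, smul_eq_mul, hφ, Finset.sum_sub_distrib,
        Finset.sum_const, Finset.card_range, nsmul_eq_mul]
      rw [mul_sub, inv_mul_cancel_left₀ hN'.ne']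
    rw [h3, abs_mul, abs_of_pos (by positivity : (0 : ℝ) < (N : ℝ)⁻¹), inv_mul_lt_iff₀ hN'] at h2
    exact h2.le
  have hav := avg_small hC (by positivity) hN1 hwin
  obtain ⟨n0, hn0⟩ := exists_nat_gt (((K + N) * (2 * ‖f‖)) / (ε / 2))
  refine ⟨n0, fun n hn => ?_⟩
  have hn' : (0 : ℝ) < (n : ℝ) + 1 := by positivity
  rw [Real.dist_eq]
  have h4 : f ((((n : ℝ) + 1)⁻¹) • ∑ j ∈ Finset.range (n + 1), T^[j] x) - f p
      = ((n : ℝ) + 1)⁻¹ * ∑ j ∈ Finset.range (n + 1), φ j := by
    simp only [map_smul, map_sum, smul_eq_mul, hφ, Finset.sum_sub_distrib,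
      Finset.sum_const, Finset.card_range, nsmul_eq_mul]
    push_cast
    rw [mul_sub, inv_mul_cancel_left₀ hn'.ne']
  rw [h4, abs_mul, abs_of_pos (by positivity : (0 : ℝ) < ((n : ℝ) + 1)⁻¹), inv_mul_lt_iff₀ hn']
  have h5 := hav (n + 1)
  push_cast at h5
  have h6 : ((K : ℝ) + N) * (2 * ‖f‖) < ((n : ℝ) + 1) * (ε / 2) := by
    rw [div_lt_iff₀ (by positivity)] at hn0
    have : (n0 : ℝ) ≤ n := by exact_mod_cast hn
    nlinarith
  linarith

end Pool.Agent.Lib.MP_760d08_an
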