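import Pool.Agent.Lib.MP_760d08_an.Basic

set_option autoImplicit false

open Filter Topology Set Metric

namespace Pool.Agent.Lib.MP_760d08_an

set_option linter.unusedSectionVars false

variable {X : Type*} [NormedAddCommGroup X] [NormedSpace ℝ X]

section Ultra

variable {I J : Type*}

/-- The limit of a (bounded) real function along an ultrafilter. -/
noncomputable def ulim (W : Ultrafilter J) (f : J → ℝ) : ℝ := limUnder (W : Filter J) f

theorem tendsto_ulim (W : Ultrafilter J) {f : J → ℝ} {C : ℝ} (hf : ∀ j, |f j| ≤ C) :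
    Tendsto f W (𝓝 (ulim W f)) := by
  have hc : IsCompact (Icc (-C) C) := isCompact_Icc
  obtain ⟨a, _, ha⟩ := hc.ultrafilter_le_nhds (W.map f) (by
    rw [le_principal_iff]
    exact Eventually.of_forall (f := (W : Filter J)) fun j => abs_le.mp (hf j))
  exact tendsto_nhds_limUnder ⟨a, ha⟩

theorem tendsto_ulim_norm (W : Ultrafilter J) {v : J → X} {C : ℝ} (hv : ∀ j, ‖v j‖ ≤ C) :
    Tendsto (fun j => ‖v j‖) W (𝓝 (ulim W (fun j => ‖v j‖))) :=
  tendsto_ulim W (C := C) fun j => by rw [abs_norm]; exact hv j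

theorem ulim_eq {W : Ultrafilter J} {f : J → ℝ} {a : ℝ} (h : Tendsto f W (𝓝 a)) :
    ulim W f = a := h.limUnder_eq

/-- The iterated product of two ultrafilters (the first coordinate is the outer one). -/
def prodU (W : Ultrafilter I) (V : Ultrafilter J) : Ultrafilter (I × J) :=
  W.bind (fun i => V.map (Prod.mk i))

theorem eventually_prodU {W : Ultrafilter I} {V : Ultrafilter J} {P : I × J → Prop} :
    (∀ᶠ z in (prodU W V : Filter (I × J)), P z) ↔ ∀ᶠ i in (W : Filter I), ∀ᶠ j in (V : Filter J), P (i, j) := by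
  rfl

theorem tendsto_fst_prodU {W : Ultrafilter I} {V : Ultrafilter J} :
    Tendsto Prod.fst (prodU W V : Filter (I × J)) (W : Filter I) := by
  intro s hs
  show ∀ᶠ z in (prodU W V : Filter (I × J)), z.1 ∈ s
  rw [eventually_prodU]
  filter_upwards [hs] with i hi
  exact Eventually.of_forall fun _ => hi

theorem tendsto_snd_prodU {W : Ultrafilter I} {V : Ultrafilter J} :
    Tendsto Prod.snd (prodU W V : Filter (I × J)) (V : Filter J) := by
  intro s hs
  show ∀ᶠ z in (prodU W V : Filter (I × J)), z.2 ∈ s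
  rw [eventually_prodU]
  exact Eventually.of_forall fun _ => hs

theorem ulim_prodU (W : Ultrafilter I) (V : Ultrafilter J) {f : I × J → ℝ} {C : ℝ}
    (hf : ∀ z, |f z| ≤ C) :
    ulim (prodU W V) f = ulim W (fun i => ulim V (fun j => f (i, j))) := by
  have h1 := tendsto_ulim (prodU W V) hf
  have h2 : ∀ i, Tendsto (fun j => f (i, j)) V (𝓝 (ulim V (fun j => f (i, j)))) :=
    fun i => tendsto_ulim V (C := C) fun j => hf (i, j)
  symm
  apply ulim_eq
  rw [Metric.tendsto_nhds]
  intro ε hε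
  have h3 := (Metric.tendsto_nhds.mp h1) (ε / 2) (by positivity)
  rw [eventually_prodU] at h3
  filter_upwards [h3] with i hi
  have h4 : dist (ulim V (fun j => f (i, j))) (ulim (prodU W V) f) ≤ ε / 2 :=
    le_of_tendsto ((h2 i).dist tendsto_const_nhds) (hi.mono fun j hj => hj.le)
  linarith

end Ultra

/-- Weak convergence along a filter. -/
def WeakTo {I : Type*} (F : Filter I) (y : I → X) (p : X) : Prop :=
  ∀ f : X →L[ℝ] ℝ, Tendsto (fun i => f (y i)) F (𝓝 (f p))

theorem mem_of_weakTo {I : Type*} {F : Filter I} [F.NeBot] {y : I → X} {p : X}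
    (h : WeakTo F y p) {K : Set X} (hK : IsClosed K) (hKc : Convex ℝ K)
    (hy : ∀ᶠ i in F, y i ∈ K) : p ∈ K := by
  by_contra hp
  obtain ⟨f, u, h1, h2⟩ := geometric_hahn_banach_closed_point hKc hK hp
  have h3 : f p ≤ u := le_of_tendsto (h f) (hy.mono fun i hi => (h1 _ hi).le)
  linarith

theorem wlsc {I : Type*} {F : Filter I} [F.NeBot] {y : I → X} {p : X}
    (h : WeakTo F y p) {g : X → ℝ} (hg : Continuous g) (hgc : ConvexOn ℝ univ g) {L : ℝ}
    (hL : Tendsto (fun i => g (y i)) F (𝓝 L)) : g p ≤ L := by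
  refine le_of_forall_pos_le_add fun ε hε => ?_
  have hK : IsClosed {z | g z ≤ L + ε} := isClosed_le hg continuous_const
  have hKc : Convex ℝ {z | g z ≤ L + ε} := by
    have := hgc.convex_le (L + ε)
    simpa using this
  have := mem_of_weakTo h hK hKc ((hL.eventually (gt_mem_nhds (by linarith : L < L + ε))).mono
    fun i hi => le_of_lt hi)
  exact this

/-- `c` is asymptotically fixed by `T` along `W`. -/
def Approx {J : Type*} (T : X → X) (W : Ultrafilter J) (c : J → X) : Prop :=
  (∀ j, c j ∈ closedBall (0 : X) 1) ∧ Tendsto (fun j => ‖T (c j) - c j‖) W (𝓝 0)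

theorem Approx.const {J : Type*} {T : X → X} (W : Ultrafilter J) {q : X}
    (hq : q ∈ closedBall (0 : X) 1) (hTq : T q = q) : Approx T W (fun _ => q) :=
  ⟨fun _ => hq, by simp [hTq]⟩

theorem Approx.fst {I J : Type*} {T : X → X} {W : Ultrafilter I} (V : Ultrafilter J) {c : I → X}
    (hc : Approx T W c) : Approx T (prodU W V) (fun z => c z.1) :=
  ⟨fun z => hc.1 z.1, hc.2.comp tendsto_fst_prodU⟩

theorem Approx.snd {I J : Type*} {T : X → X} (W : Ultrafilter I) {V : Ultrafilter J} {c : J → X}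
    (hc : Approx T V c) : Approx T (prodU W V) (fun z => c z.2) :=
  ⟨fun z => hc.1 z.2, hc.2.comp tendsto_snd_prodU⟩

theorem Approx.iterate {J : Type*} {T : X → X} (hT : NonexpOn T) {W : Ultrafilter J} {c : J → X}
    (hc : Approx T W c) (l : ℕ) : Tendsto (fun j => ‖T^[l] (c j) - c j‖) W (𝓝 0) := by
  induction l with
  | zero => simp
  | succ l ih =>
    have h := ih.add hc.2
    rw [add_zero] at h
    refine squeeze_zero (fun j => norm_nonneg _) (fun j => ?_) h
    rw [Function.iterate_succ_apply]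
    have : T^[l] (T (c j)) - c j = (T^[l] (T (c j)) - T^[l] (c j)) + (T^[l] (c j) - c j) := by
      abel
    rw [this]
    refine (norm_add_le _ _).trans ?_
    have := (hT.iterate l).2 _ (hT.1 (hc.1 j)) _ (hc.1 j)
    linarith

theorem Approx.convex [UniformConvexSpace X] {J : Type*} {T : X → X} (hT : NonexpOn T)
    {W : Ultrafilter J} {a b : J → X} (ha : Approx T W a) (hb : Approx T W b) {t : ℝ}
    (ht0 : 0 ≤ t) (ht1 : t ≤ 1) : Approx T W (fun j => t • a j + (1 - t) • b j) := by
  refine ⟨fun j => ball_convex (ha.1 j) (hb.1 j) ht0 ht1, ?_⟩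
  rw [Metric.tendsto_nhds]
  intro ε hε
  obtain ⟨δ, hδ, hg⟩ := gamma (X := X) (ε := ε / 2) (by positivity)
  have ea := (Metric.tendsto_nhds.mp ha.2) (min (δ / 2) (ε / 2)) (by positivity)
  have eb := (Metric.tendsto_nhds.mp hb.2) (min (δ / 2) (ε / 2)) (by positivity)
  filter_upwards [ea, eb] with j h1 h2
  simp only [dist_zero_right, norm_norm] at h1 h2 ⊢
  have h1a := lt_of_lt_of_le h1 (min_le_left _ _)
  have h1b := lt_of_lt_of_le h1 (min_le_right _ _)
  have h2a := lt_of_lt_of_le h2 (min_le_left _ _)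
  have h2b := lt_of_lt_of_le h2 (min_le_right _ _)
  have hdec : ‖a j - b j‖ - ‖T (a j) - T (b j)‖ ≤ δ := by
    have : a j - b j = -(T (a j) - a j) + (T (a j) - T (b j)) + (T (b j) - b j) := by abel
    have h3 : ‖a j - b j‖ ≤ ‖T (a j) - a j‖ + ‖T (a j) - T (b j)‖ + ‖T (b j) - b j‖ := by
      nth_rw 1 [this]
      refine (norm_add₃_le).trans ?_
      rw [norm_neg]
    linarith
  have h3 := hg T hT _ (ha.1 j) _ (hb.1 j) t ht0 ht1 hdec
  have h4 : T (t • a j + (1 - t) • b j) - (t • a j + (1 - t) • b j)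
      = (T (t • a j + (1 - t) • b j) - (t • T (a j) + (1 - t) • T (b j)))
        + (t • (T (a j) - a j) + (1 - t) • (T (b j) - b j)) := by module
  rw [h4]
  refine lt_of_le_of_lt (norm_add_le _ _) ?_
  have h5 : ‖t • (T (a j) - a j) + (1 - t) • (T (b j) - b j)‖ ≤ ε / 2 := by
    refine (norm_add_le _ _).trans ?_
    rw [norm_smul_of_nonneg ht0, norm_smul_of_nonneg (by linarith : (0 : ℝ) ≤ 1 - t)]
    nlinarith
  linarith

end Pool.Agent.Lib.MP_760d08_an
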