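import Pool.Agent.Lib.MP_760d08_an.Windows

set_option autoImplicit false

open Filter Topology Set Metric

namespace Pool.Agent.Lib.MP_760d08_an

set_option linter.unusedSectionVars false

variable {X : Type*} [NormedAddCommGroup X] [NormedSpace ℝ X]

/-- Index types of the iterated averages. -/
def JT : ℕ → Type
  | 0 => ℕ × ℕ
  | r + 1 => JT r × JT r

/-- Iterated ultrafilters. -/
def WT (P : Ultrafilter (ℕ × ℕ)) : (r : ℕ) → Ultrafilter (JT r)
  | 0 => P
  | r + 1 => prodU (WT P r) (WT P r)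

/-- Iterated averages of independent copies. -/
noncomputable def aT (y : ℕ × ℕ → X) : (r : ℕ) → JT r → X
  | 0 => y
  | r + 1 => fun z => (1 / 2 : ℝ) • aT y r z.1 + (1 - 1 / 2 : ℝ) • aT y r z.2

theorem Approx_aT [UniformConvexSpace X] {T : X → X} (hT : NonexpOn T)
    {P : Ultrafilter (ℕ × ℕ)} {y : ℕ × ℕ → X} (hy : Approx T P y) (r : ℕ) :
    Approx T (WT P r) (aT y r) := by
  induction r with
  | zero => exact hy
  | succ r ih =>
    exact Approx.convex hT (ih.fst _) (ih.snd _) (by norm_num) (by norm_num)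

theorem WeakTo_aT {P : Ultrafilter (ℕ × ℕ)} {y : ℕ × ℕ → X} {p : X}
    (hy : WeakTo (P : Filter (ℕ × ℕ)) y p) (r : ℕ) :
    WeakTo (WT P r : Filter (JT r)) (aT y r) p := by
  induction r with
  | zero => exact hy
  | succ r ih =>
    intro f
    have h1 : Tendsto (fun z : JT r × JT r => f (aT y r z.1)) (prodU (WT P r) (WT P r))
        (𝓝 (f p)) := (ih f).comp tendsto_fst_prodU
    have h2 : Tendsto (fun z : JT r × JT r => f (aT y r z.2)) (prodU (WT P r) (WT P r))
        (𝓝 (f p)) := (ih f).comp tendsto_snd_prodU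
    have h3 := (h1.const_mul (1 / 2 : ℝ)).add (h2.const_mul (1 - 1 / 2 : ℝ))
    have h4 : (1 / 2 : ℝ) * f p + (1 - 1 / 2) * f p = f p := by ring
    rw [h4] at h3
    refine h3.congr fun z => ?_
    show _ = f ((1 / 2 : ℝ) • aT y r z.1 + (1 - 1 / 2 : ℝ) • aT y r z.2)
    simp only [map_add, map_smul, smul_eq_mul]

/-- The key property of a family of averages: adding an outer copy of the average inside a
convex combination does not lie (in norm limit) below adding the point `q`. -/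
def Key {I : Type} (T : X → X) (p q : X) (V : Ultrafilter I) (a : I → X) : Prop :=
  ∀ (J : Type) (W : Ultrafilter J) (c : J → X), Approx T W c → ∀ t : ℝ, 0 ≤ t → t ≤ 1 →
    ulim W (fun j => ‖t • q + (1 - t) • c j - p‖)
      ≤ ulim (prodU V W) (fun z : I × J => ‖t • a z.1 + (1 - t) • c z.2 - p‖)

theorem Key_base [UniformConvexSpace X] {T : X → X} (hT : NonexpOn T) {x p q : X}
    (hx : x ∈ closedBall (0 : X) 1) (hp : p ∈ closedBall (0 : X) 1) (hTp : T p = p)
    {P Q : Ultrafilter (ℕ × ℕ)} (hP : (P : Filter (ℕ × ℕ)) ≤ BF) (hQ : (Q : Filter (ℕ × ℕ)) ≤ BF)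
    (y : ℕ × ℕ → X) (hyS : ∀ w, y w = S T x w.1 w.2) (hyb : ∀ w, y w ∈ closedBall (0 : X) 1)
    (hq : WeakTo (Q : Filter (ℕ × ℕ)) y q) :
    Key T p q P y := by
  intro J W c hc t ht0 ht1
  obtain ⟨L, hL⟩ := G_windows hT hc hx hp hTp ht0 ht1
  have h1 : G W c p t q ≤ L := by
    refine wlsc hq (G_continuous hc) (G_convex hc) ?_
    refine (hL.mono_left hQ).congr fun w => ?_
    rw [hyS]
  have h2 : ulim (prodU P W) (fun z : (ℕ × ℕ) × J => ‖t • y z.1 + (1 - t) • c z.2 - p‖) = L := by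
    rw [ulim_prodU P W (C := 2) (fun z => by
      rw [abs_norm]; exact bound_comb ht0 ht1 (hyb _) (hc.1 _) hp)]
    apply ulim_eq
    refine (hL.mono_left hP).congr fun w => ?_
    simp only [G, hyS]
  rw [h2]
  exact h1

theorem Key_step [UniformConvexSpace X] {T : X → X} (hT : NonexpOn T) {p q : X}
    (hp : p ∈ closedBall (0 : X) 1)
    (hq : q ∈ closedBall (0 : X) 1) (hTq : T q = q) {I : Type} {V : Ultrafilter I} {a : I → X}
    (ha : Approx T V a) (h : Key T p q V a) :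
    Key T p q (prodU V V) (fun z => (1 / 2 : ℝ) • a z.1 + (1 - 1 / 2 : ℝ) • a z.2) := by
  intro J W c hc t ht0 ht1
  set s : ℝ := t / (2 - t) with hs
  have h2t : 0 < 2 - t := by linarith
  have hs0 : 0 ≤ s := by positivity
  have hs1 : s ≤ 1 := by rw [hs, div_le_one h2t]; linarith
  have hst : (1 - t / 2) * s = t / 2 := by rw [hs]; field_simp
  have hst' : (1 - t / 2) * (1 - s) = 1 - t := by rw [mul_sub, hst]; ring
  have ht20 : 0 ≤ t / 2 := by positivity
  have ht21 : t / 2 ≤ 1 := by linarith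
  -- first step
  have hc2 : Approx T W (fun j => s • q + (1 - s) • c j) :=
    Approx.convex hT (Approx.const W hq hTq) hc hs0 hs1
  have k1 := h J W _ hc2 (t / 2) ht20 ht21
  -- second step
  have hc1 : Approx T (prodU V W) (fun z => s • a z.1 + (1 - s) • c z.2) :=
    Approx.convex hT (ha.fst W) (hc.snd V) hs0 hs1
  have k2 := h (I × J) (prodU V W) _ hc1 (t / 2) ht20 ht21
  have e1 : ∀ j, (t / 2) • q + (1 - t / 2) • (s • q + (1 - s) • c j) - p
      = t • q + (1 - t) • c j - p := by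
    intro j
    rw [smul_add (1 - t / 2), smul_smul, smul_smul, hst, hst']
    module
  have e2 : ∀ z : I × J, (t / 2) • a z.1 + (1 - t / 2) • (s • q + (1 - s) • c z.2) - p
      = (t / 2) • q + (1 - t / 2) • (s • a z.1 + (1 - s) • c z.2) - p := by
    intro z
    rw [smul_add (1 - t / 2), smul_smul, smul_smul, smul_add (1 - t / 2), smul_smul, smul_smul,
      hst, hst']
    module
  have e3 : ∀ z : I × (I × J), (t / 2) • a z.1 + (1 - t / 2) • (s • a z.2.1 + (1 - s) • c z.2.2) - p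
      = t • ((1 / 2 : ℝ) • a z.1 + (1 - 1 / 2 : ℝ) • a z.2.1) + (1 - t) • c z.2.2 - p := by
    intro z
    rw [smul_add (1 - t / 2), smul_smul, smul_smul, hst, hst']
    module
  simp only [e1] at k1
  simp only [e2] at k1
  simp only [e3] at k2
  refine (k1.trans k2).trans (le_of_eq ?_)
  have hhalf : ∀ z : I × I, (1 / 2 : ℝ) • a z.1 + (1 - 1 / 2 : ℝ) • a z.2 ∈ closedBall (0 : X) 1 :=
    fun z => ball_convex (ha.1 _) (ha.1 _) (by norm_num) (by norm_num)
  rw [ulim_prodU V (prodU V W) (C := 2) (fun z => by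
      rw [abs_norm]; exact bound_comb ht0 ht1 (hhalf (z.1, z.2.1)) (hc.1 _) hp),
    ulim_prodU (prodU V V) W (C := 2) (fun z => by
      rw [abs_norm]; exact bound_comb ht0 ht1 (hhalf z.1) (hc.1 _) hp)]
  have hb : ∀ i i' : I, |ulim W (fun j => ‖t • ((1 / 2 : ℝ) • a i + (1 - 1 / 2 : ℝ) • a i')
      + (1 - t) • c j - p‖)| ≤ 2 := by
    intro i i'
    have := tendsto_ulim_norm W (v := fun j => t • ((1 / 2 : ℝ) • a i + (1 - 1 / 2 : ℝ) • a i')
      + (1 - t) • c j - p) (C := 2) (fun j => bound_comb ht0 ht1 (hhalf (i, i')) (hc.1 _) hp)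
    rw [abs_of_nonneg (ge_of_tendsto this (Eventually.of_forall fun _ => norm_nonneg _))]
    exact le_of_tendsto this (Eventually.of_forall fun j =>
      bound_comb ht0 ht1 (hhalf (i, i')) (hc.1 _) hp)
  rw [ulim_prodU V V (C := 2) (fun z => hb z.1 z.2)]
  congr 1
  funext i
  rw [ulim_prodU V W (C := 2) (fun z => by
      rw [abs_norm]; exact bound_comb ht0 ht1 (hhalf (i, z.1)) (hc.1 _) hp)]

theorem Key_aT [UniformConvexSpace X] {T : X → X} (hT : NonexpOn T) {x p q : X}
    (hx : x ∈ closedBall (0 : X) 1) (hp : p ∈ closedBall (0 : X) 1) (hTp : T p = p)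
    (hq : q ∈ closedBall (0 : X) 1) (hTq : T q = q)
    {P Q : Ultrafilter (ℕ × ℕ)} (hP : (P : Filter (ℕ × ℕ)) ≤ BF) (hQ : (Q : Filter (ℕ × ℕ)) ≤ BF)
    (y : ℕ × ℕ → X) (hyS : ∀ w, y w = S T x w.1 w.2) (hyb : Approx T P y)
    (hwq : WeakTo (Q : Filter (ℕ × ℕ)) y q) (r : ℕ) :
    Key T p q (WT P r) (aT y r) := by
  induction r with
  | zero => exact Key_base hT hx hp hTp hP hQ y hyS hyb.1 hwq
  | succ r ih =>
    exact Key_step hT hp hq hTq (Approx_aT hT hyb r) ih

/-- The distance of the iterated averages from `p` is bounded below by `‖q - p‖`. -/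
theorem lower_bound {T : X → X} {p q : X} (hp : p ∈ closedBall (0 : X) 1)
    (hq : q ∈ closedBall (0 : X) 1) (hTq : T q = q) {I : Type} {V : Ultrafilter I} {a : I → X}
    (ha : Approx T V a) (h : Key T p q V a) :
    ‖q - p‖ ≤ ulim V (fun i => ‖a i - p‖) := by
  have k := h I V (fun _ => q) (Approx.const V hq hTq) 1 zero_le_one le_rfl
  simp only [one_smul, sub_self, zero_smul, add_zero] at k
  have e1 : ulim V (fun _ : I => ‖q - p‖) = ‖q - p‖ := ulim_eq tendsto_const_nhds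
  rw [e1] at k
  refine k.trans (le_of_eq ?_)
  rw [ulim_prodU V V (C := 2) (fun z => by
    rw [abs_norm]; exact norm_sub_le_two (ha.1 _) hp)]
  congr 1
  funext i
  exact ulim_eq tendsto_const_nhds

/-- Averaging two independent copies of a weakly convergent family decreases the distance to
the weak limit by a definite amount. -/
theorem contraction [UniformConvexSpace X] {d : ℝ} (hd : 0 < d) :
    ∃ δ, 0 < δ ∧ ∀ (I : Type) (V : Ultrafilter I) (a : I → X) (p : X),
      (∀ i, a i ∈ closedBall (0 : X) 1) → p ∈ closedBall (0 : X) 1 →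
      WeakTo (V : Filter I) a p → d ≤ ulim V (fun i => ‖a i - p‖) →
      ulim (prodU V V) (fun z : I × I => ‖(1 / 2 : ℝ) • a z.1 + (1 - 1 / 2 : ℝ) • a z.2 - p‖)
        ≤ ulim V (fun i => ‖a i - p‖) - δ := by
  obtain ⟨δ, hδ, hu⟩ := uc_unif (X := X) (ε := d / 8) (by positivity)
  refine ⟨δ, hδ, ?_⟩
  intro I V a p hab hpb hw hdD
  have tD := tendsto_ulim_norm V (v := fun i => a i - p) (C := 2)
    (fun i => norm_sub_le_two (hab i) hpb)
  set D := ulim V (fun i => ‖a i - p‖) with hD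
  have hD2 : D ≤ 2 := le_of_tendsto tD (Eventually.of_forall fun i => norm_sub_le_two (hab i) hpb)
  set η : ℝ := min (min (δ / 2) (d / 8)) 1 with hη
  have hη0 : 0 < η := by positivity
  have hη1 : η ≤ δ / 2 := (min_le_left _ _).trans (min_le_left _ _)
  have hη2 : η ≤ d / 8 := (min_le_left _ _).trans (min_le_right _ _)
  have hη3 : η ≤ 1 := min_le_right _ _
  have hhalf : ∀ z : I × I, (1 / 2 : ℝ) • a z.1 + (1 - 1 / 2 : ℝ) • a z.2 ∈ closedBall (0 : X) 1 :=
    fun z => ball_convex (hab _) (hab _) (by norm_num) (by norm_num)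
  have tE := tendsto_ulim_norm (prodU V V)
    (v := fun z : I × I => (1 / 2 : ℝ) • a z.1 + (1 - 1 / 2 : ℝ) • a z.2 - p) (C := 2)
    (fun z => norm_sub_le_two (hhalf z) hpb)
  refine le_of_tendsto tE ?_
  rw [eventually_prodU]
  have hnear : ∀ᶠ i in (V : Filter I), |‖a i - p‖ - D| < η := by
    have := (Metric.tendsto_nhds.mp tD) η hη0
    simpa [Real.dist_eq] using this
  filter_upwards [hnear] with i hi
  rw [abs_lt] at hi
  -- weak lower semicontinuity
  have tF := tendsto_ulim_norm V (v := fun j => a i - a j) (C := 2)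
    (fun j => norm_sub_le_two (hab i) (hab j))
  have hF : ‖a i - p‖ ≤ ulim V (fun j => ‖a i - a j‖) := by
    refine wlsc (g := fun z => ‖a i - z‖) hw (by fun_prop) ?_ tF
    refine ⟨convex_univ, ?_⟩
    intro u _ v _ α β hα hβ hαβ
    have hβ' : β = 1 - α := by linarith
    subst hβ'
    have : a i - (α • u + (1 - α) • v) = α • (a i - u) + (1 - α) • (a i - v) := by module
    show ‖a i - (α • u + (1 - α) • v)‖ ≤ α • ‖a i - u‖ + (1 - α) • ‖a i - v‖
    rw [this]
    refine (norm_add_le _ _).trans ?_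
    rw [norm_smul_of_nonneg hα, norm_smul_of_nonneg hβ, smul_eq_mul, smul_eq_mul]
  have hF2 : ∀ᶠ j in (V : Filter I), ‖a i - p‖ - η < ‖a i - a j‖ :=
    tF.eventually (lt_mem_nhds (by linarith))
  filter_upwards [hnear, hF2] with j hj hj2
  rw [abs_lt] at hj
  have q0 : (0 : ℝ) ≤ 1 / 4 := by norm_num
  have n1 : ‖(1 / 4 : ℝ) • (a i - p)‖ ≤ (D + η) / 4 := by
    rw [norm_smul_of_nonneg q0]; linarith
  have n2 : ‖(1 / 4 : ℝ) • (a j - p)‖ ≤ (D + η) / 4 := by
    rw [norm_smul_of_nonneg q0]; linarith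
  have n3 : d / 8 ≤ ‖(1 / 4 : ℝ) • (a i - p) - (1 / 4 : ℝ) • (a j - p)‖ := by
    have : (1 / 4 : ℝ) • (a i - p) - (1 / 4 : ℝ) • (a j - p) = (1 / 4 : ℝ) • (a i - a j) := by
      module
    rw [this, norm_smul_of_nonneg q0]
    linarith
  have n4 := hu ((D + η) / 4) (by linarith) _ _ n1 n2 n3
  have n5 : (1 / 4 : ℝ) • (a i - p) + (1 / 4 : ℝ) • (a j - p)
      = (1 / 2 : ℝ) • ((1 / 2 : ℝ) • a i + (1 - 1 / 2 : ℝ) • a j - p) := by module
  rw [n5, norm_smul_of_nonneg (by norm_num : (0 : ℝ) ≤ 1 / 2)] at n4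
  show ‖(1 / 2 : ℝ) • a i + (1 - 1 / 2 : ℝ) • a j - p‖ ≤ D - δ
  linarith

/-- Iterated averages of a weakly convergent family come arbitrarily close in norm to the weak
limit. -/
theorem exists_close [UniformConvexSpace X] {P : Ultrafilter (ℕ × ℕ)} {y : ℕ × ℕ → X} {p : X}
    (hyb : ∀ w, y w ∈ closedBall (0 : X) 1) (hp : p ∈ closedBall (0 : X) 1)
    (hw : WeakTo (P : Filter (ℕ × ℕ)) y p) {d : ℝ} (hd : 0 < d) :
    ∃ r, ulim (WT P r) (fun i => ‖aT y r i - p‖) < d := by
  by_contra hcon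
  push Not at hcon
  obtain ⟨δ, hδ, hc⟩ := contraction (X := X) hd
  have hmem : ∀ r i, aT y r i ∈ closedBall (0 : X) 1 := by
    intro r
    induction r with
    | zero => exact hyb
    | succ r ih => exact fun z => ball_convex (ih _) (ih _) (by norm_num) (by norm_num)
  have hstep : ∀ r, ulim (WT P (r + 1)) (fun i => ‖aT y (r + 1) i - p‖)
      ≤ ulim (WT P r) (fun i => ‖aT y r i - p‖) - δ :=
    fun r => hc (JT r) (WT P r) (aT y r) p (hmem r) hp (WeakTo_aT hw r) (hcon r)
  have hall : ∀ r : ℕ, ulim (WT P r) (fun i => ‖aT y r i - p‖)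
      ≤ ulim (WT P 0) (fun i => ‖aT y 0 i - p‖) - r * δ := by
    intro r
    induction r with
    | zero => simp
    | succ r ih => push_cast; linarith [hstep r]
  obtain ⟨n, hn⟩ := exists_nat_gt (ulim (WT P 0) (fun i => ‖aT y 0 i - p‖) / δ)
  rw [div_lt_iff₀ hδ] at hn
  have := hall n
  have := hcon n
  linarith

/-- The demiclosedness principle along ultrafilters. -/
theorem fixed_of_weak [UniformConvexSpace X] {T : X → X} (hT : NonexpOn T)
    {P : Ultrafilter (ℕ × ℕ)} {y : ℕ × ℕ → X} {p : X}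
    (hy : Approx T P y) (hp : p ∈ closedBall (0 : X) 1)
    (hw : WeakTo (P : Filter (ℕ × ℕ)) y p) : T p = p := by
  rw [← sub_eq_zero, ← norm_le_zero_iff]
  refine le_of_forall_pos_le_add fun ε hε => ?_
  obtain ⟨r, hr⟩ := exists_close hy.1 hp hw (d := ε / 2) (by positivity)
  have ha := Approx_aT hT hy r
  have t1 := tendsto_ulim_norm (WT P r) (v := fun i => aT y r i - p) (C := 2)
    (fun i => norm_sub_le_two (ha.1 i) hp)
  have t2 := (t1.const_mul 2).add ha.2
  have h : ‖T p - p‖ ≤ 2 * ulim (WT P r) (fun i => ‖aT y r i - p‖) + 0 := by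
    refine ge_of_tendsto t2 (Eventually.of_forall fun i => ?_)
    have e1 := hT.2 _ hp _ (ha.1 i)
    have : T p - p = (T p - T (aT y r i)) + (T (aT y r i) - aT y r i) + (aT y r i - p) := by abel
    rw [this]
    refine (norm_add₃_le).trans ?_
    rw [norm_sub_rev p] at e1
    linarith
  linarith

/-- Uniqueness of weak limits of windows. -/
theorem unique_limit [UniformConvexSpace X] {T : X → X} (hT : NonexpOn T) {x p q : X}
    (hx : x ∈ closedBall (0 : X) 1) (hp : p ∈ closedBall (0 : X) 1) (hTp : T p = p)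
    (hq : q ∈ closedBall (0 : X) 1) (hTq : T q = q)
    {P Q : Ultrafilter (ℕ × ℕ)} (hP : (P : Filter (ℕ × ℕ)) ≤ BF) (hQ : (Q : Filter (ℕ × ℕ)) ≤ BF)
    (y : ℕ × ℕ → X) (hyS : ∀ w, y w = S T x w.1 w.2) (hyb : Approx T P y)
    (hwp : WeakTo (P : Filter (ℕ × ℕ)) y p)
    (hwq : WeakTo (Q : Filter (ℕ × ℕ)) y q) : q = p := by
  by_contra hne
  have hd : 0 < ‖q - p‖ := norm_pos_iff.mpr (sub_ne_zero.mpr hne)
  obtain ⟨r, hr⟩ := exists_close hyb.1 hp hwp hd
  have := lower_bound hp hq hTq (Approx_aT hT hyb r)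
    (Key_aT hT hx hp hTp hq hTq hP hQ y hyS hyb hwq r)
  linarith

end Pool.Agent.Lib.MP_760d08_an
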