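import Pool.Agent.Lib.MP_760d08_an.Ultra

set_option autoImplicit false

open Filter Topology Set Metric

namespace Pool.Agent.Lib.MP_760d08_an

set_option linter.unusedSectionVars false

variable {X : Type*} [NormedAddCommGroup X] [NormedSpace ℝ X]

section

variable {J : Type*} {T : X → X} {W : Ultrafilter J} {c : J → X}

theorem norm_le_one {u : X} (hu : u ∈ closedBall (0 : X) 1) : ‖u‖ ≤ 1 := by
  simpa [mem_closedBall_zero_iff] using hu

theorem dist_approx_mono (hT : NonexpOn T) (hc : Approx T W c) {y : ℕ → X}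
    (hy : AlmostOrbit T y) : AlmostMono (fun k => ulim W (fun j => ‖y k - c j‖)) := by
  intro ε hε
  obtain ⟨K, hK⟩ := hy.2 ε hε
  refine ⟨K, fun k hk l => ?_⟩
  have t1 := tendsto_ulim_norm W (v := fun j => y (k + l) - c j) (C := 2)
    (fun j => norm_sub_le_two (hy.1 _) (hc.1 j))
  have t2 := tendsto_ulim_norm W (v := fun j => y k - c j) (C := 2)
    (fun j => norm_sub_le_two (hy.1 _) (hc.1 j))
  have t3 := (t2.add (tendsto_const_nhds (x := ε))).add (hc.iterate hT l)
  rw [add_zero] at t3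
  refine le_of_tendsto_of_tendsto t1 t3 (Eventually.of_forall fun j => ?_)
  have e1 := hK k hk l
  have e2 := (hT.iterate l).2 _ (hy.1 k) _ (hc.1 j)
  have : y (k + l) - c j = -(T^[l] (y k) - y (k + l)) + (T^[l] (y k) - T^[l] (c j))
      + (T^[l] (c j) - c j) := by abel
  show ‖y (k + l) - c j‖ ≤ ‖y k - c j‖ + ε + ‖T^[l] (c j) - c j‖
  rw [this]
  refine (norm_add₃_le).trans ?_
  rw [norm_neg]
  linarith

theorem bound_comb {t : ℝ} (ht0 : 0 ≤ t) (ht1 : t ≤ 1) {u v p : X}
    (hu : u ∈ closedBall (0 : X) 1) (hv : v ∈ closedBall (0 : X) 1)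
    (hp : p ∈ closedBall (0 : X) 1) : ‖t • u + (1 - t) • v - p‖ ≤ 2 :=
  norm_sub_le_two (ball_convex hu hv ht0 ht1) hp

theorem g_mono [UniformConvexSpace X] (hT : NonexpOn T) (hc : Approx T W c) {y : ℕ → X}
    (hy : AlmostOrbit T y) {p : X} (hp : p ∈ closedBall (0 : X) 1) (hTp : T p = p) {t : ℝ}
    (ht0 : 0 ≤ t) (ht1 : t ≤ 1) :
    AlmostMono (fun k => ulim W (fun j => ‖t • y k + (1 - t) • c j - p‖)) := by
  intro ε hε
  obtain ⟨δ, hδ, hg⟩ := gamma (X := X) (ε := ε / 2) (by positivity)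
  have hbd : ∀ k, Tendsto (fun j => ‖y k - c j‖) W (𝓝 (ulim W (fun j => ‖y k - c j‖))) :=
    fun k => tendsto_ulim_norm W (v := fun j => y k - c j) (C := 2)
      (fun j => norm_sub_le_two (hy.1 _) (hc.1 j))
  obtain ⟨L, hL⟩ := (dist_approx_mono hT hc hy).tendsto (c := 0)
    (fun k => ge_of_tendsto (hbd k) (Eventually.of_forall fun j => norm_nonneg _))
  obtain ⟨K0, h0⟩ := (Metric.tendsto_atTop.mp hL) (δ / 4) (by positivity)
  set η := min (δ / 8) (ε / 2) with hη
  have hη0 : 0 < η := by positivity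
  have hη1 : η ≤ δ / 8 := min_le_left _ _
  have hη2 : η ≤ ε / 2 := min_le_right _ _
  obtain ⟨K1, h1⟩ := hy.2 η hη0
  refine ⟨max K0 K1, fun k hk l => ?_⟩
  have hk0 : K0 ≤ k := le_trans (le_max_left _ _) hk
  have hk1 : K1 ≤ k := le_trans (le_max_right _ _) hk
  have e1 := h1 k hk1 l
  have d1 := h0 k hk0
  have d2 := h0 (k + l) (le_trans hk0 (Nat.le_add_right _ _))
  rw [Real.dist_eq, abs_lt] at d1 d2
  -- eventually the decrement is small
  have hdec : ∀ᶠ j in (W : Filter J), ‖y k - c j‖ - ‖T^[l] (y k) - T^[l] (c j)‖ ≤ δ := by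
    have t3 := ((hbd k).sub (hbd (k + l))).add (hc.iterate hT l)
    have hlt : ulim W (fun j => ‖y k - c j‖) - ulim W (fun j => ‖y (k + l) - c j‖) + 0
        < δ - η := by linarith [d1.2, d2.1]
    filter_upwards [t3.eventually (gt_mem_nhds hlt)] with j hj
    have : y (k + l) - c j = -(T^[l] (y k) - y (k + l)) + (T^[l] (y k) - T^[l] (c j))
        + (T^[l] (c j) - c j) := by abel
    have h3 : ‖y (k + l) - c j‖ ≤ ‖T^[l] (y k) - y (k + l)‖ + ‖T^[l] (y k) - T^[l] (c j)‖
        + ‖T^[l] (c j) - c j‖ := by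
      nth_rw 1 [this]
      refine (norm_add₃_le).trans ?_
      rw [norm_neg]
    linarith
  have s1 := tendsto_ulim_norm W (v := fun j => t • y (k + l) + (1 - t) • c j - p) (C := 2)
    (fun j => bound_comb ht0 ht1 (hy.1 _) (hc.1 j) hp)
  have s2 := tendsto_ulim_norm W (v := fun j => t • y k + (1 - t) • c j - p) (C := 2)
    (fun j => bound_comb ht0 ht1 (hy.1 _) (hc.1 j) hp)
  have s3 := (s2.add (tendsto_const_nhds (x := η + ε / 2))).add (hc.iterate hT l)
  rw [add_zero] at s3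
  have s4 : ulim W (fun j => ‖t • y (k + l) + (1 - t) • c j - p‖)
      ≤ ulim W (fun j => ‖t • y k + (1 - t) • c j - p‖) + (η + ε / 2) := by
    refine le_of_tendsto_of_tendsto s1 s3 ?_
    filter_upwards [hdec] with j hj
    have h3 := (hg (T^[l]) (hT.iterate l) _ (hy.1 k) _ (hc.1 j) t ht0 ht1 hj).le
    have h4 := (hT.iterate l).2 _ (ball_convex (hy.1 k) (hc.1 j) ht0 ht1) _ hp
    rw [Function.iterate_fixed hTp l] at h4
    have h5 : t • y (k + l) + (1 - t) • c j - p
        = -(t • (T^[l] (y k) - y (k + l)) + (1 - t) • (T^[l] (c j) - c j))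
          + -(T^[l] (t • y k + (1 - t) • c j) - (t • T^[l] (y k) + (1 - t) • T^[l] (c j)))
          + (T^[l] (t • y k + (1 - t) • c j) - p) := by module
    show ‖t • y (k + l) + (1 - t) • c j - p‖ ≤ ‖t • y k + (1 - t) • c j - p‖ + (η + ε / 2)
      + ‖T^[l] (c j) - c j‖
    rw [h5]
    refine (norm_add₃_le).trans ?_
    rw [norm_neg, norm_neg]
    have h6 : ‖t • (T^[l] (y k) - y (k + l)) + (1 - t) • (T^[l] (c j) - c j)‖
        ≤ η + ‖T^[l] (c j) - c j‖ := by
      refine (norm_add_le _ _).trans ?_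
      rw [norm_smul_of_nonneg ht0, norm_smul_of_nonneg (by linarith : (0 : ℝ) ≤ 1 - t)]
      have := norm_nonneg (T^[l] (c j) - c j)
      have := norm_nonneg (T^[l] (y k) - y (k + l))
      nlinarith
    linarith
  show ulim W (fun j => ‖t • y (k + l) + (1 - t) • c j - p‖)
      ≤ ulim W (fun j => ‖t • y k + (1 - t) • c j - p‖) + ε
  linarith

end

/-- The functional `z ↦ lim_W ‖t z + (1 - t) c - p‖`. -/
noncomputable def G {J : Type*} (W : Ultrafilter J) (c : J → X) (p : X) (t : ℝ) (z : X) : ℝ :=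
  ulim W (fun j => ‖t • z + (1 - t) • c j - p‖)

section

variable {J : Type*} {T : X → X} {W : Ultrafilter J} {c : J → X} {p : X} {t : ℝ}

theorem G_tendsto (hc : Approx T W c) (z : X) :
    Tendsto (fun j => ‖t • z + (1 - t) • c j - p‖) W (𝓝 (G W c p t z)) := by
  apply tendsto_ulim_norm W (v := fun j => t • z + (1 - t) • c j - p)
    (C := ‖t • z‖ + |1 - t| + ‖p‖)
  intro j
  refine (norm_sub_le _ _).trans ?_
  refine add_le_add_left ((norm_add_le _ _).trans ?_) _
  rw [norm_smul (1 - t), Real.norm_eq_abs]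
  have := norm_le_one (hc.1 j)
  have := abs_nonneg (1 - t)
  nlinarith

theorem G_nonneg (hc : Approx T W c) (z : X) : 0 ≤ G W c p t z :=
  ge_of_tendsto (G_tendsto hc z) (Eventually.of_forall fun _ => norm_nonneg _)

theorem G_lip (hc : Approx T W c) (z z' : X) : G W c p t z ≤ G W c p t z' + |t| * ‖z - z'‖ := by
  refine le_of_tendsto_of_tendsto (G_tendsto hc z)
    ((G_tendsto hc z').add tendsto_const_nhds) (Eventually.of_forall fun j => ?_)
  show ‖t • z + (1 - t) • c j - p‖ ≤ ‖t • z' + (1 - t) • c j - p‖ + |t| * ‖z - z'‖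
  have : t • z + (1 - t) • c j - p = (t • z' + (1 - t) • c j - p) + t • (z - z') := by module
  rw [this]
  refine (norm_add_le _ _).trans ?_
  rw [norm_smul, Real.norm_eq_abs]

theorem G_continuous (hc : Approx T W c) : Continuous (G W c p t) := by
  apply LipschitzWith.continuous (K := ‖t‖₊)
  apply LipschitzWith.of_le_add_mul
  intro x y
  have := G_lip (p := p) (t := t) hc x y
  rwa [dist_eq_norm]

theorem G_comb (hc : Approx T W c) (z z' : X) {a b : ℝ} (ha : 0 ≤ a) (hb : 0 ≤ b)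
    (hab : a + b = 1) : G W c p t (a • z + b • z') ≤ a * G W c p t z + b * G W c p t z' := by
  refine le_of_tendsto_of_tendsto (G_tendsto hc (a • z + b • z'))
    (((G_tendsto hc z).const_mul a).add ((G_tendsto hc z').const_mul b))
    (Eventually.of_forall fun j => ?_)
  show ‖t • (a • z + b • z') + (1 - t) • c j - p‖
    ≤ a * ‖t • z + (1 - t) • c j - p‖ + b * ‖t • z' + (1 - t) • c j - p‖
  have hb' : b = 1 - a := by linarith
  subst hb'
  have : t • (a • z + (1 - a) • z') + (1 - t) • c j - p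
      = a • (t • z + (1 - t) • c j - p) + (1 - a) • (t • z' + (1 - t) • c j - p) := by module
  rw [this]
  refine (norm_add_le _ _).trans ?_
  rw [norm_smul_of_nonneg ha, norm_smul_of_nonneg hb]

theorem G_convex (hc : Approx T W c) : ConvexOn ℝ univ (G W c p t) := by
  refine ⟨convex_univ, ?_⟩
  intro x _ y _ a b ha hb hab
  simpa using G_comb (p := p) (t := t) hc x y ha hb hab

theorem G_converges [UniformConvexSpace X] (hT : NonexpOn T) (hc : Approx T W c) {y : ℕ → X}
    (hy : AlmostOrbit T y) (hp : p ∈ closedBall (0 : X) 1) (hTp : T p = p)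
    (ht0 : 0 ≤ t) (ht1 : t ≤ 1) :
    ∃ L, Tendsto (fun k => G W c p t (y k)) atTop (𝓝 L) :=
  (g_mono hT hc hy hp hTp ht0 ht1).tendsto (c := 0) (fun k => G_nonneg hc _)

/-- The base filter on windows `(N, k)`: first `k → ∞`, then `N → ∞`. -/
def BF : Filter (ℕ × ℕ) := (atTop : Filter ℕ).curry (atTop : Filter ℕ)

theorem S_add (T : X → X) (x : X) (M N k : ℕ) (hM : 1 ≤ M) (hN : 1 ≤ N) :
    S T x (M + N) k = ((M : ℝ) / (M + N)) • S T x M k + ((N : ℝ) / (M + N)) • S T x N (k + M) := by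
  have hM' : (0 : ℝ) < M := by exact_mod_cast hM
  have hN' : (0 : ℝ) < N := by exact_mod_cast hN
  unfold S
  rw [Finset.sum_range_add, smul_add, smul_smul, smul_smul]
  push_cast
  congr 1
  · congr 1
    field_simp
  · congr 1
    · field_simp
    · refine Finset.sum_congr rfl fun j _ => ?_
      rw [add_assoc]

theorem G_windows [UniformConvexSpace X] (hT : NonexpOn T) (hc : Approx T W c) {x : X}
    (hx : x ∈ closedBall (0 : X) 1) (hp : p ∈ closedBall (0 : X) 1) (hTp : T p = p)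
    (ht0 : 0 ≤ t) (ht1 : t ≤ 1) :
    ∃ L, Tendsto (fun w : ℕ × ℕ => G W c p t (S T x w.1 w.2)) BF (𝓝 L) := by
  choose Φ hΦ using fun (N : ℕ) (hN : 1 ≤ N) =>
    G_converges hT hc (almostOrbit_S hT hx N hN) hp hTp ht0 ht1
  let Ψ : ℕ → ℝ := fun N => if hN : 1 ≤ N then Φ N hN else 0
  have hΨ : ∀ N, 1 ≤ N → Tendsto (fun k => G W c p t (S T x N k)) atTop (𝓝 (Ψ N)) := by
    intro N hN
    simp only [Ψ, hN, dite_true]
    exact hΦ N hN
  have hΨ0 : ∀ N, 0 ≤ Ψ N := by
    intro N
    by_cases hN : 1 ≤ N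
    · exact ge_of_tendsto (hΨ N hN) (Eventually.of_forall fun _ => G_nonneg hc _)
    · simp [Ψ, hN]
  have hsub : Subadditive (fun N : ℕ => (N : ℝ) * Ψ N) := by
    intro M N
    rcases Nat.eq_zero_or_pos M with hM | hM
    · subst hM; simp
    rcases Nat.eq_zero_or_pos N with hN | hN
    · subst hN; simp
    have hM' : (0 : ℝ) < M := by exact_mod_cast hM
    have hN' : (0 : ℝ) < N := by exact_mod_cast hN
    have h1 := hΨ (M + N) (by omega)
    have h2 := (hΨ M hM).const_mul ((M : ℝ) / (M + N))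
    have h3 := ((hΨ N hN).comp (tendsto_add_atTop_nat M)).const_mul ((N : ℝ) / (M + N))
    have h4 := le_of_tendsto_of_tendsto h1 (h2.add h3) (Eventually.of_forall fun k => by
      show G W c p t (S T x (M + N) k) ≤ _
      rw [S_add T x M N k hM hN]
      refine G_comb hc _ _ (by positivity) (by positivity) ?_
      field_simp)
    show ((M + N : ℕ) : ℝ) * Ψ (M + N) ≤ M * Ψ M + N * Ψ N
    push_cast
    have h5 : ((M : ℝ) + N) * Ψ (M + N) ≤ (M + N) * ((M : ℝ) / (M + N) * Ψ M + (N : ℝ) / (M + N) * Ψ N) := by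
      gcongr
    refine h5.trans (le_of_eq ?_)
    field_simp
  have hlim := hsub.tendsto_lim ⟨0, by
    rintro _ ⟨n, rfl⟩
    have := hΨ0 n
    positivity⟩
  refine ⟨hsub.lim, ?_⟩
  rw [Metric.tendsto_nhds]
  intro ε hε
  unfold BF
  rw [eventually_curry_iff]
  filter_upwards [(Metric.tendsto_nhds.mp hlim) (ε / 2) (by positivity), eventually_ge_atTop 1]
    with N h1 hN
  have hN' : (N : ℝ) ≠ 0 := by positivity
  rw [mul_div_cancel_left₀ _ hN'] at h1
  filter_upwards [(Metric.tendsto_nhds.mp (hΨ N hN)) (ε / 2) (by positivity)] with k hk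
  have := dist_triangle (G W c p t (S T x N k)) (Ψ N) hsub.lim
  show dist (G W c p t (S T x N k)) hsub.lim < ε
  linarith

end

end Pool.Agent.Lib.MP_760d08_an
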